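import Pool.Agent.H635Z.L

set_option autoImplicit false

open Polynomial Finset Pool.Agent.H635Z

namespace Pool.Agent.Results.MP_0cd67c_ag.ZeroSumPreservers

/-- The space of real polynomials of degree at most `m` whose coefficient of `t ^ (m - 1)` is zero. -/
def ZeroSum (m : ℕ) : Submodule ℝ ℝ[X] where
  carrier := {p | p.natDegree ≤ m ∧ p.coeff (m - 1) = 0}
  add_mem' := by
    rintro p q ⟨hp, hp'⟩ ⟨hq, hq'⟩
    exact ⟨(natDegree_add_le p q).trans (max_le hp hq), by rw [coeff_add, hp', hq', add_zero]⟩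
  zero_mem' := ⟨by simp, by simp⟩
  smul_mem' := by
    rintro c p ⟨hp, hp'⟩
    exact ⟨(natDegree_smul_le c p).trans hp, by rw [coeff_smul, hp', smul_zero]⟩

/-- A real polynomial having only real roots: every complex zero is real (the zero polynomial is
allowed). -/
def OnlyRealRoots (p : ℝ[X]) : Prop := p = 0 ∨ ∀ z : ℂ, aeval z p = 0 → z.im = 0

/-- Diagonal maps: `T (t ^ (n - i)) = γ i * t ^ (d - i)` for admissible `i ≤ d`, and
`T (t ^ (n - i)) = 0` for `i > d`. -/
def IsDiagonal {n d : ℕ} (T : ZeroSum n →ₗ[ℝ] ZeroSum d) : Prop :=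
  ∃ γ : ℕ → ℝ, ∀ i : ℕ, i ≤ n → i ≠ 1 → ∀ m : ZeroSum n, (m : ℝ[X]) = X ^ (n - i) →
    (T m : ℝ[X]) = if i ≤ d then C (γ i) * X ^ (d - i) else 0

/-- The polynomial `g₀ = (t - 1) ^ (n - 1) * (t + n - 1)`. -/
noncomputable def g0 (n : ℕ) : ℝ[X] := (X - 1) ^ (n - 1) * (X + C ((n : ℝ) - 1))

/-- At least `d - 1` of the real roots of `p`, counted with multiplicity, are `≥ 0`, or at least
`d - 1` of them are `≤ 0` (so a zero root may be counted with either sign). -/
def SameSign (d : ℕ) (p : ℝ[X]) : Prop :=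
  d - 1 ≤ Multiset.card (p.roots.filter (fun x => 0 ≤ x)) ∨
    d - 1 ≤ Multiset.card (p.roots.filter (fun x => x ≤ 0))

/-- `T` maps zero-sum polynomials with only real roots to polynomials with only real roots. -/
def IsPreserver {n d : ℕ} (T : ZeroSum n →ₗ[ℝ] ZeroSum d) : Prop :=
  ∀ g : ZeroSum n, OnlyRealRoots (g : ℝ[X]) → OnlyRealRoots (T g : ℝ[X])

lemma reflect_g0 (n : ℕ) (hn : 1 ≤ n) : reflect n (g0 n) =
    (1 - C 1 * X) ^ n - X * derivative ((1 - C 1 * X) ^ n : ℝ[X]) := by
  obtain ⟨k, rfl⟩ : ∃ k, n = k + 1 := ⟨n - 1, by omega⟩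
  have h1 : g0 (k + 1) = ((Multiset.replicate k (1 : ℝ)).map (fun a => (X - C a : ℝ[X]))).prod *
      (X - C (-(k : ℝ))) := by
    rw [g0, Multiset.map_replicate, Multiset.prod_replicate]
    simp
  have h2 := reflect_LM (Multiset.replicate k (1 : ℝ))
  rw [Multiset.card_replicate] at h2
  rw [h1, reflect_mul _ _ (F := k) (G := 1) (by
    rw [natDegree_multiset_prod_X_sub_C_eq_card]; simp) (by rw [natDegree_X_sub_C]), h2,
    reflect_lin]
  have h3 : LM (Multiset.replicate k (1 : ℝ)) = (1 - C 1 * X) ^ k := by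
    unfold LM
    rw [Multiset.map_replicate, Multiset.prod_replicate]
  rw [h3, derivative_pow]
  simp only [derivative_sub, derivative_one, derivative_C_mul, derivative_X, Nat.add_sub_cancel]
  push_cast
  simp only [C_1, C_neg, map_add, map_natCast]
  ring

lemma reflect_g0_coeff (n : ℕ) (hn : 1 ≤ n) (i : ℕ) :
    (reflect n (g0 n)).coeff i = (1 - (i : ℝ)) * ((-1) ^ i * (n.choose i : ℝ)) := by
  rw [reflect_g0 n hn, coeff_sub]
  have h : ∀ j, ((1 - C 1 * X) ^ n : ℝ[X]).coeff j = (-1) ^ j * (n.choose j : ℝ) := by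
    intro j
    have : (1 - C 1 * X : ℝ[X]) = (1 + X).comp (C (-1) * X) := by simp; ring
    rw [this, ← pow_comp, comp_C_mul_X_coeff, coeff_one_add_X_pow]
    ring
  rcases i with _ | i
  · rw [coeff_X_mul_zero, h]; simp
  · rw [coeff_X_mul, coeff_derivative, h]
    push_cast
    ring

lemma g0_mem (n : ℕ) (hn : 1 ≤ n) : g0 n ∈ ZeroSum n := by
  constructor
  · show (g0 n).natDegree ≤ n
    rw [g0]
    refine natDegree_mul_le.trans ?_
    have h1 : ((X - 1) ^ (n - 1) : ℝ[X]).natDegree ≤ n - 1 := by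
      refine natDegree_pow_le.trans ?_
      have : (X - 1 : ℝ[X]).natDegree = 1 := by
        rw [show (X - 1 : ℝ[X]) = X - C 1 by simp, natDegree_X_sub_C]
      rw [this, mul_one]
    have h2 : (X + C ((n : ℝ) - 1) : ℝ[X]).natDegree = 1 := natDegree_X_add_C _
    omega
  · show (g0 n).coeff (n - 1) = 0
    have h1 := reflect_g0_coeff n hn 1
    rw [coeff_reflect, revAt_le hn] at h1
    rw [h1]; simp

lemma mono_mem (n i : ℕ) (hn : 1 ≤ n) (hi : i ≤ n) (hi1 : i ≠ 1) :
    (X ^ (n - i) : ℝ[X]) ∈ ZeroSum n := by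
  constructor
  · show (X ^ (n - i) : ℝ[X]).natDegree ≤ n
    rw [natDegree_X_pow]; omega
  · show (X ^ (n - i) : ℝ[X]).coeff (n - 1) = 0
    rw [coeff_X_pow, if_neg (by omega)]

lemma T_coeff {n d : ℕ} (hn : 1 ≤ n) (T : ZeroSum n →ₗ[ℝ] ZeroSum d) (γ : ℕ → ℝ)
    (hγ : ∀ i : ℕ, i ≤ n → i ≠ 1 → ∀ m : ZeroSum n, (m : ℝ[X]) = X ^ (n - i) →
      (T m : ℝ[X]) = if i ≤ d then C (γ i) * X ^ (d - i) else 0) (g : ZeroSum n) (i : ℕ) :
    (reflect d (T g : ℝ[X])).coeff i =
      if i ≤ d ∧ i ≤ n ∧ i ≠ 1 then γ i * (reflect n (g : ℝ[X])).coeff i else 0 := by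
  classical
  let m : ℕ → ZeroSum n := fun i => if h : i ≤ n ∧ i ≠ 1 then
    ⟨X ^ (n - i), mono_mem n i hn h.1 h.2⟩ else 0
  have hm : ∀ i, i ≤ n → i ≠ 1 → (m i : ℝ[X]) = X ^ (n - i) := by
    intro i h1 h2
    simp only [m]
    rw [dif_pos ⟨h1, h2⟩]
  have hg : g = ∑ i ∈ (range (n + 1)).erase 1, ((g : ℝ[X]).coeff (n - i)) • m i := by
    apply Subtype.ext
    rw [AddSubmonoidClass.coe_finsetSum]
    ext k
    rw [finsetSum_coeff]
    have hterm : ∀ i ∈ (range (n + 1)).erase 1,
        (((((g : ℝ[X]).coeff (n - i)) • m i : ZeroSum n) : ℝ[X])).coeff k =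
        if k = n - i then (g : ℝ[X]).coeff (n - i) else 0 := by
      intro i hi
      rw [mem_erase, mem_range] at hi
      rw [Submodule.coe_smul, hm i (by omega) hi.1, coeff_smul, coeff_X_pow]
      split_ifs <;> simp
    rw [sum_congr rfl hterm]
    by_cases hk : k ≤ n ∧ k ≠ n - 1
    · rw [sum_eq_single (n - k)]
      · rw [if_pos (by omega), show n - (n - k) = k by omega]
      · intro j hj hjk
        rw [mem_erase, mem_range] at hj
        rw [if_neg (by omega)]
      · intro hcon
        exfalso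
        apply hcon
        rw [mem_erase, mem_range]
        omega
    · have h0 : (g : ℝ[X]).coeff k = 0 := by
        by_cases hk2 : k ≤ n
        · have : k = n - 1 := by
            by_contra h; exact hk ⟨hk2, h⟩
          rw [this]; exact g.2.2
        · exact coeff_eq_zero_of_natDegree_lt (lt_of_le_of_lt g.2.1 (by omega))
      rw [h0]
      symm
      apply sum_eq_zero
      intro j hj
      rw [mem_erase, mem_range] at hj
      split_ifs with h
      · rw [← h]; exact h0
      · rfl
  have hT : (T g : ℝ[X]) = ∑ i ∈ (range (n + 1)).erase 1, C ((g : ℝ[X]).coeff (n - i)) *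
      (if i ≤ d then C (γ i) * X ^ (d - i) else 0) := by
    conv_lhs => rw [hg]
    rw [map_sum, AddSubmonoidClass.coe_finsetSum]
    apply sum_congr rfl
    intro i hi
    rw [mem_erase, mem_range] at hi
    rw [map_smul, Submodule.coe_smul, hγ i (by omega) hi.1 (m i) (hm i (by omega) hi.1),
      smul_eq_C_mul]
  rw [coeff_reflect]
  by_cases hid : i ≤ d
  · rw [revAt_le hid, hT, finsetSum_coeff]
    have hterm : ∀ j ∈ (range (n + 1)).erase 1,
        (C ((g : ℝ[X]).coeff (n - j)) * (if j ≤ d then C (γ j) * X ^ (d - j) else 0) : ℝ[X]).coeff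
          (d - i) = if j = i then γ j * (g : ℝ[X]).coeff (n - j) else 0 := by
      intro j hj
      rw [coeff_C_mul]
      split_ifs with h1 h2 h2
      · rw [coeff_C_mul, coeff_X_pow, if_pos (by omega)]; ring
      · rw [coeff_C_mul, coeff_X_pow, if_neg (by omega)]; ring
      · omega
      · simp
    rw [sum_congr rfl hterm, sum_ite_eq']
    by_cases hi : i ≤ n ∧ i ≠ 1
    · rw [if_pos (by rw [mem_erase, mem_range]; omega), if_pos ⟨hid, hi.1, hi.2⟩, coeff_reflect,
        revAt_le hi.1]
    · rw [if_neg (by rw [mem_erase, mem_range]; omega), if_neg (by tauto)]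
  · rw [revAt_eq_self_of_lt (by omega), if_neg (by tauto)]
    exact coeff_eq_zero_of_natDegree_lt (lt_of_le_of_lt (T g).2.1 (by omega))

lemma splits_iff_only (p : ℝ[X]) : OnlyRealRoots p ↔ p.Splits := by
  constructor
  · rintro (h | h)
    · rw [h]; exact Splits.zero
    · exact splits_of_real p h
  · intro h
    by_cases h0 : p = 0
    · exact Or.inl h0
    · exact Or.inr (real_of_splits p h h0)

/-- **Main theorem.** For all `n, d ≥ 1`: a diagonal linear map `T` between the spaces of zero-sum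
polynomials such that `T g₀` has only real roots, at least `d - 1` of which have the same sign, maps
every polynomial with only real roots to a polynomial with only real roots. -/
theorem result : ∀ (n d : ℕ) (hn : 1 ≤ n), 1 ≤ d → ∀ T : ZeroSum n →ₗ[ℝ] ZeroSum d,
    IsDiagonal T → OnlyRealRoots (T ⟨g0 n, g0_mem n hn⟩ : ℝ[X]) →
    SameSign d (T ⟨g0 n, g0_mem n hn⟩ : ℝ[X]) → IsPreserver T := by
  intro n d hn hd T hdiag hreal hsign g hg
  rw [splits_iff_only] at hreal hg ⊢
  -- trivial small cases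
  rcases Nat.lt_or_ge d 2 with hd2 | hd2
  · apply Splits.of_natDegree_le_one
    exact (T g).2.1.trans (by omega)
  obtain ⟨γ, hγ⟩ := hdiag
  have hTc := T_coeff hn T γ hγ
  rcases Nat.lt_or_ge n 2 with hn2 | hn2
  · -- n = 1
    obtain rfl : n = 1 := by omega
    have h1 : reflect d (T g : ℝ[X]) = C (γ 0 * (reflect 1 (g : ℝ[X])).coeff 0) := by
      ext k
      rw [hTc, coeff_C]
      by_cases hk : k = 0
      · rw [hk, if_pos (by omega), if_pos rfl]
      · rw [if_neg (by omega), if_neg hk]
    have h2 : (T g : ℝ[X]) = reflect d (reflect d (T g : ℝ[X])) := by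
      ext k; rw [coeff_reflect, coeff_reflect, revAt_invol]
    rw [h2, h1]
    exact splits_reflect d _ (Splits.C _) (by rw [natDegree_C]; exact Nat.zero_le d)
  obtain ⟨N, rfl⟩ : ∃ N, n = N + 2 := ⟨n - 2, by omega⟩
  set p : ℝ[X] := (T ⟨g0 (N + 2), g0_mem (N + 2) hn⟩ : ℝ[X]) with hp
  have hpmem := (T ⟨g0 (N + 2), g0_mem (N + 2) hn⟩).2
  have hpd : p.natDegree ≤ d := hpmem.1
  have hpc : p.coeff (d - 1) = 0 := hpmem.2
  -- p is nonzero of degree d
  have hcardle : d - 1 ≤ Multiset.card p.roots := by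
    rcases hsign with h | h
    · exact h.trans (Multiset.card_le_card (Multiset.filter_le _ _))
    · exact h.trans (Multiset.card_le_card (Multiset.filter_le _ _))
  have hp0 : p ≠ 0 := by
    intro h
    rw [h, roots_zero, Multiset.card_zero] at hcardle
    omega
  have hnd : p.natDegree = d := by
    have h1 := card_roots' p
    by_contra hne
    have h2 : p.natDegree = d - 1 := by omega
    have h3 : p.leadingCoeff = 0 := by rw [leadingCoeff, h2]; exact hpc
    exact hp0 (leadingCoeff_eq_zero.mp h3)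
  have hcard : Multiset.card p.roots = d := by rw [← hreal.natDegree_eq_card_roots, hnd]
  have hsum : p.roots.sum = 0 := by
    have h1 := hreal.nextCoeff_eq_neg_sum_roots_mul_leadingCoeff
    have h2 : p.nextCoeff = 0 := by
      rw [nextCoeff_of_natDegree_pos (by omega), hnd]; exact hpc
    rw [h2] at h1
    have h3 : p.leadingCoeff ≠ 0 := leadingCoeff_ne_zero.mpr hp0
    have h4 : p.leadingCoeff * p.roots.sum = 0 := by linarith
    exact (mul_eq_zero.mp h4).resolve_left h3
  -- the reciprocal symbol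
  set P0 : ℝ[X] := reflect d p with hP0
  have hP0eq : P0 = C p.leadingCoeff * LM p.roots := by
    rw [hP0]
    conv_lhs => rw [hreal.eq_prod_roots]
    rw [reflect_C_mul, ← reflect_LM, hcard]
  have hP0deg : P0.natDegree ≤ N + 2 := by
    rw [natDegree_le_iff_coeff_eq_zero]
    intro k hk
    rw [hP0, hp, hTc, if_neg (by omega)]
  have hlc : p.leadingCoeff ≠ 0 := leadingCoeff_ne_zero.mpr hp0
  have hLMdeg : (LM p.roots).natDegree ≤ N + 2 := by
    rw [hP0eq, natDegree_C_mul hlc] at hP0deg
    exact hP0deg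
  -- T in terms of the bilinear form
  have hTf : reflect d (T g : ℝ[X]) = fP (N + 2) (reflect (N + 2) (g : ℝ[X])) P0 := by
    ext k
    rw [hTc, fP_coeff]
    by_cases hk : k ≤ N + 2
    · rw [if_pos hk, hP0, hp, hTc]
      simp only
      rw [reflect_g0_coeff (N + 2) hn k]
      by_cases hk1 : k = 1
      · subst hk1
        rw [if_neg (by tauto)]
        simp [kap]
      · by_cases hkd : k ≤ d
        · rw [if_pos ⟨hkd, hk, hk1⟩, if_pos ⟨hkd, hk, hk1⟩]
          unfold kap
          have c0 : ((N + 2).choose k : ℝ) ≠ 0 := by exact_mod_cast (Nat.choose_pos hk).ne'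
          have c1 : (1 - (k : ℝ)) ≠ 0 := by
            intro h
            apply hk1
            have : (k : ℝ) = 1 := by linarith
            exact_mod_cast this
          have c2 : ((-1 : ℝ) ^ k) * (-1) ^ k = 1 := by rw [← mul_pow]; simp
          field_simp
          linear_combination (-(γ k * (reflect (N + 2) (g : ℝ[X])).coeff k)) * c2
        · rw [if_neg (by tauto), if_neg (by tauto)]; ring
    · rw [if_neg hk, if_neg (by tauto)]
  have hfs : (fP (N + 2) (reflect (N + 2) (g : ℝ[X])) P0).Splits := by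
    rcases hsign with h | h
    · obtain ⟨a, ha, hLM⟩ := family_PP p.roots N hsum (by omega) hLMdeg
      rw [hP0eq, hLM, fP_C_mul]
      exact (fP_splits N g hg g.2.1 g.2.2 a ha).C_mul _
    · set M' := p.roots.map (fun x => -x) with hM'
      have hscM : sc (-1) (LM p.roots) = LM M' := sc_LM _
      have h1 : (LM M').natDegree ≤ N + 2 := by
        rw [← hscM, natDegree_le_iff_coeff_eq_zero]
        intro k hk
        rw [sc_coeff, coeff_eq_zero_of_natDegree_lt (by omega), zero_mul]
      have h2 : Multiset.card (M'.filter (fun x => 0 ≤ x)) =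
          Multiset.card (p.roots.filter (fun x => x ≤ 0)) := by
        rw [hM', Multiset.filter_map, Multiset.card_map]
        congr 1
        apply Multiset.filter_congr
        intro x _
        simp
      have h3 : M'.sum = 0 := by
        rw [hM', Multiset.sum_map_neg, Multiset.map_id', hsum, neg_zero]
      obtain ⟨a, ha, hLM⟩ := family_PP M' N h3 (by rw [h2, hM', Multiset.card_map]; omega) h1
      have h4 : LM p.roots = sc (-1) (PP a) := by
        rw [← hLM, ← hscM]
        ext k
        rw [sc_coeff, sc_coeff, mul_assoc, ← mul_pow]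
        simp
      rw [hP0eq, h4, fP_C_mul, fP_sc]
      apply Splits.C_mul
      have h5 := fP_splits N g hg g.2.1 g.2.2 a ha
      have h6 : sc (-1) (fP (N + 2) (reflect (N + 2) (g : ℝ[X])) (PP a)) =
          (fP (N + 2) (reflect (N + 2) (g : ℝ[X])) (PP a)).comp (-X) := by
        unfold sc; simp
      rw [h6]
      exact h5.comp_neg_X
  have h2 : (T g : ℝ[X]) = reflect d (reflect d (T g : ℝ[X])) := by
    ext k; rw [coeff_reflect, coeff_reflect, revAt_invol]
  rw [h2]
  apply splits_reflect d _ (by rw [hTf]; exact hfs)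
  rw [natDegree_le_iff_coeff_eq_zero]
  intro k hk
  rw [hTc, if_neg (by omega)]

end Pool.Agent.Results.MP_0cd67c_ag.ZeroSumPreservers
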